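import Pool.Agent.W188.Tpl.Main

/-!
# The density threshold for rainbow cliques in colouring templates, for all large `r`

For every `r ≥ 2 ^ 20 + 1` the threshold `δ_r` of Aharoni, DeVos, de la Maza, Montejano and Samal is
`1 - 1 / (r - 1)`, the Turan density.

Proof.  Put `s = r - 1` and `k = r (r - 1) / 2`.  Call an `s`-set suitable if for every `j ≤ k / 2` at
most `j - 2` of its pairs have at most `j` colours, and no colour is missing on nearly half of its
pairs.  By Hall's theorem, in a template without rainbow `K_r` every vertex `z` misses at least `k`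
(edge, colour) incidences to a suitable set `Q`, and the vertices which miss fewer than `5 k / 4` are
of `s` types such that two vertices of the same type are not joined in any colour.  Remove a maximal
family of disjoint suitable sets.  If the remainder `A` has at most a fifth of the vertices, then
summing these facts over the family shows that the total number of edges is at most the Turan bound.
Otherwise the excess over the Turan bound is inherited by `A`, and a weighted Moon-Moser inequality
together with a union bound over the perfect matchings `a + b = i` shows that `A` contains a further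
suitable set.
-/

set_option autoImplicit false

namespace Pool.Agent.Results.MP_d78df2_co.AllLargeR

open Finset

/-- The template `G` (with `r.choose 2` colour classes on the vertex set `Fin n`) contains a rainbow
copy of `K_r`: there are `r` distinct vertices `v a` and a bijection `φ` from the pairs `a < b` onto
the colours such that the edge joining `v a` and `v b` belongs to the colour class `φ (a, b)`. -/
def HasRainbowClique (r : ℕ) {n : ℕ} (G : Fin (r.choose 2) → SimpleGraph (Fin n)) : Prop :=
  ∃ v : Fin r ↪ Fin n, ∃ φ : {p : Fin r × Fin r // p.1 < p.2} ≃ Fin (r.choose 2),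
    ∀ p, (G (φ p)).Adj (v p.1.1) (v p.1.2)

/-- For every sufficiently large `n`, each `n`-vertex template with `r.choose 2` colour classes all
of which have more than `δ n² / 2` edges contains a rainbow copy of `K_r`. -/
def Forces (r : ℕ) (δ : ℝ) : Prop :=
  ∃ n₀ : ℕ, ∀ n ≥ n₀, ∀ G : Fin (r.choose 2) → SimpleGraph (Fin n),
    (∀ i, δ * (n : ℝ) ^ 2 / 2 < ((G i).edgeSet.ncard : ℝ)) → HasRainbowClique r G

theorem upper (r : ℕ) (hr : 2 ^ 20 + 1 ≤ r) : Forces r (1 - 1 / ((r : ℝ) - 1)) := by
  classical
  obtain ⟨s, rfl⟩ : ∃ s, r = s + 1 := ⟨r - 1, by omega⟩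
  have hs : 2 ^ 20 ≤ s := by omega
  have hk : 2 * (s + 1).choose 2 = (s + 1) * s := by
    rw [Nat.choose_two_right, Nat.add_sub_cancel, Nat.mul_div_cancel']
    exact (Nat.even_mul_pred_self (s + 1)).two_dvd
  have hs0 : (0 : ℝ) < s := by
    have : (0 : ℕ) < s := lt_of_lt_of_le (by norm_num) hs
    exact_mod_cast this
  refine ⟨0, fun n _ G hG => ?_⟩
  let M : Fin n → Fin n → Finset (Fin ((s + 1).choose 2)) := fun x y => univ.filter fun c => (G c).Adj x y
  have hc : ∀ c, s * ∑ x, (univ.filter fun y => c ∉ M x y).card < Fintype.card (Fin n) ^ 2 := by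
    intro c
    have e1 : ∑ x, (univ.filter fun y => c ∉ M x y).card + 2 * (G c).edgeFinset.card = n ^ 2 := by
      rw [← SimpleGraph.sum_degrees_eq_twice_card_edges, ← sum_add_distrib]
      have : ∀ x : Fin n, (univ.filter fun y => c ∉ M x y).card + (G c).degree x = n := by
        intro x
        have h1 : (G c).degree x = (univ.filter fun y => c ∈ M x y).card := by
          rw [← SimpleGraph.card_neighborFinset_eq_degree]
          congr 1
          ext y
          simp [M]
        rw [h1, add_comm]
        have := card_filter_add_card_filter_not (s := (univ : Finset (Fin n))) (fun y => c ∈ M x y)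
        simpa using this
      rw [sum_congr rfl fun x _ => this x]
      simp [sq]
    have h1 := hG c
    have h2 : (G c).edgeSet.ncard = (G c).edgeFinset.card := by
      rw [Set.ncard_eq_toFinset_card']
      rfl
    rw [h2] at h1
    have e2 : ((∑ x, (univ.filter fun y => c ∉ M x y).card : ℕ) : ℝ) + 2 * ((G c).edgeFinset.card : ℝ) =
        (n : ℝ) ^ 2 := by exact_mod_cast e1
    have h3 : (s : ℝ) * ((∑ x, (univ.filter fun y => c ∉ M x y).card : ℕ) : ℝ) < (n : ℝ) ^ 2 := by
      push_cast at h1
      rw [add_sub_cancel_right] at h1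
      have h4 : (s : ℝ) * ((1 - 1 / (s : ℝ)) * (n : ℝ) ^ 2) < s * (2 * ((G c).edgeFinset.card : ℝ)) :=
        mul_lt_mul_of_pos_left (by linarith) hs0
      have h5 : (s : ℝ) * ((1 - 1 / (s : ℝ)) * (n : ℝ) ^ 2) = s * (n : ℝ) ^ 2 - (n : ℝ) ^ 2 := by
        field_simp
      have h6 : (s : ℝ) * ((∑ x, (univ.filter fun y => c ∉ M x y).card : ℕ) : ℝ) =
          s * (n : ℝ) ^ 2 - s * (2 * ((G c).edgeFinset.card : ℝ)) := by
        rw [← e2]; ring
      rw [h6]
      linarith
    rw [Fintype.card_fin]
    have h7 : ((s * ∑ x, (univ.filter fun y => c ∉ M x y).card : ℕ) : ℝ) < ((n ^ 2 : ℕ) : ℝ) := by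
      rw [Nat.cast_mul, Nat.cast_pow]
      exact h3
    exact Nat.cast_lt.mp h7
  have hM : ∀ x y, M x y = M y x := by
    intro x y
    ext c
    simp [M, SimpleGraph.adj_comm]
  have hd : ∀ x, M x x = ∅ := by
    intro x
    ext c
    simp [M]
  obtain ⟨v, φ, hφ, hv⟩ := Pool.Agent.W188.Tpl.main_upper hk hs M hM hd hc
  have hinj := Pool.Agent.W188.Tpl.rbw_inj M hd v ⟨φ, hφ, hv⟩
  have hcard : Fintype.card {p : Fin (s + 1) × Fin (s + 1) // p.1 < p.2} =
      Fintype.card (Fin ((s + 1).choose 2)) := by
    have h1 := Pool.Agent.W188.Tpl.card_pairs (s + 1)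
    rw [Fintype.card_fin]
    rw [Nat.add_sub_cancel] at h1
    omega
  refine ⟨⟨v, hinj⟩, Equiv.ofBijective φ ((Fintype.bijective_iff_injective_and_card φ).mpr ⟨hφ, hcard⟩),
    fun p => ?_⟩
  have := hv p
  simpa [M] using this

theorem lower (r : ℕ) (hr : 2 ≤ r) (δ : ℝ) (hδ : Forces r δ) : 1 - 1 / ((r : ℝ) - 1) ≤ δ := by
  classical
  by_contra hlt
  push Not at hlt
  obtain ⟨s, rfl⟩ : ∃ s, r = s + 1 := ⟨r - 1, by omega⟩
  have hs1 : 1 ≤ s := by omega
  have hs0 : (0 : ℝ) < s := by exact_mod_cast hs1
  push_cast at hlt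
  rw [add_sub_cancel_right] at hlt
  obtain ⟨n₀, h⟩ := hδ
  set n := s * (n₀ + 1) with hn
  have hn0 : n₀ ≤ n := by rw [hn]; nlinarith
  obtain ⟨v, φ, hv⟩ := h n hn0 (fun _ => SimpleGraph.turanGraph n s) (by
    intro _
    have h2 : (SimpleGraph.turanGraph n s).edgeSet.ncard =
        (SimpleGraph.turanGraph n s).edgeFinset.card := by
      rw [Set.ncard_eq_toFinset_card']
      rfl
    have h3 : 2 * s * (SimpleGraph.turanGraph n s).edgeFinset.card = (s - 1) * n ^ 2 := by
      rw [SimpleGraph.card_edgeFinset_turanGraph]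
      have : n % s = 0 := by rw [hn]; exact Nat.mul_mod_right _ _
      rw [this]
      simp only [ne_eq, OfNat.ofNat_ne_zero, not_false_eq_true, zero_pow, Nat.sub_zero,
        Nat.choose_zero_succ, add_zero]
      rw [Nat.mul_div_cancel', mul_comm]
      have h4 : 2 ∣ s * (s - 1) := (Nat.even_mul_pred_self s).two_dvd
      have h5 : 2 * s ∣ (s * (s - 1)) * (s * (n₀ + 1) ^ 2) :=
        Nat.mul_dvd_mul h4 (Dvd.intro _ rfl)
      have h6 : n ^ 2 * (s - 1) = (s * (s - 1)) * (s * (n₀ + 1) ^ 2) := by rw [hn]; ring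
      rw [h6]; exact h5
    rw [h2]
    have h7 : 2 * (s : ℝ) * ((SimpleGraph.turanGraph n s).edgeFinset.card : ℝ) =
        ((s : ℝ) - 1) * (n : ℝ) ^ 2 := by
      have : ((s - 1 : ℕ) : ℝ) = (s : ℝ) - 1 := by rw [Nat.cast_sub hs1]; simp
      rw [← this]
      exact_mod_cast h3
    have hnpos : (0 : ℝ) < n := by
      have : 0 < n := by rw [hn]; positivity
      exact_mod_cast this
    have h8 : δ * (n : ℝ) ^ 2 < (1 - 1 / (s : ℝ)) * (n : ℝ) ^ 2 := by gcongr
    have h9 : (1 - 1 / (s : ℝ)) * (n : ℝ) ^ 2 =
        2 * ((SimpleGraph.turanGraph n s).edgeFinset.card : ℝ) := by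
      have : (s : ℝ) * ((1 - 1 / (s : ℝ)) * (n : ℝ) ^ 2) =
          s * (2 * ((SimpleGraph.turanGraph n s).edgeFinset.card : ℝ)) := by
        rw [show (s : ℝ) * (2 * ((SimpleGraph.turanGraph n s).edgeFinset.card : ℝ)) =
          2 * (s : ℝ) * ((SimpleGraph.turanGraph n s).edgeFinset.card : ℝ) by ring, h7]
        field_simp
      exact mul_left_cancel₀ hs0.ne' this
    linarith)
  -- pigeonhole
  have hmod : ∀ a b : Fin (s + 1), a < b → (v a : ℕ) % s ≠ (v b : ℕ) % s := by
    intro a b hab
    have := hv ⟨(a, b), hab⟩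
    simpa [SimpleGraph.turanGraph] using this
  let f : Fin (s + 1) → Fin s := fun a => ⟨(v a : ℕ) % s, Nat.mod_lt _ hs1⟩
  have hf : Function.Injective f := by
    intro a b hab
    have hab' : (v a : ℕ) % s = (v b : ℕ) % s := congrArg Fin.val hab
    rcases lt_trichotomy a b with h1 | h1 | h1
    · exact absurd hab' (hmod a b h1)
    · exact h1
    · exact absurd hab'.symm (hmod b a h1)
  have := Fintype.card_le_of_injective f hf
  simp at this

/-- **Main result.** `δ_r = 1 - 1 / (r - 1)` for every `r ≥ 2 ^ 20 + 1`. -/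
theorem result (r : ℕ) (hr : 2 ^ 20 + 1 ≤ r) :
    IsLeast {δ : ℝ | Forces r δ} (1 - 1 / ((r : ℝ) - 1)) :=
  ⟨upper r hr, fun δ hδ => lower r (le_trans (by norm_num) hr) δ hδ⟩

end Pool.Agent.Results.MP_d78df2_co.AllLargeR
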